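import Mathlib

set_option autoImplicit false

namespace Pool.Agent.Results.MP_0955de_an.NoCycle

/-- Nonzero lattice points of the circle `x² - a x + y² + a y = 0`. -/
def A (a : ℝ) : Set (ℤ × ℤ) :=
  {p | p ≠ (0, 0) ∧ (p.1 : ℝ) ^ 2 - a * p.1 + (p.2 : ℝ) ^ 2 + a * p.2 = 0}

/-- The graph `G(a₁, a₂)` on `A a₁ ∪ A a₂`. -/
def G (a₁ a₂ : ℝ) : SimpleGraph ↥(A a₁ ∪ A a₂) where
  Adj p q := p ≠ q ∧ (p.1.1 = q.1.1 ∨ p.1.2 = q.1.2)
  symm := ⟨fun _ _ h => ⟨h.1.symm, h.2.imp Eq.symm Eq.symm⟩⟩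
  loopless := ⟨fun _ h => h.1 rfl⟩

lemma inj1 {a : ℝ} (ha : ∀ n : ℤ, a ≠ n) {p q : ℤ × ℤ} (hp : p ∈ A a) (hq : q ∈ A a)
    (h : p.1 = q.1) : p = q := by
  have h1 := hp.2
  have h2 := hq.2
  rw [h] at h1
  have h3 : ((p.2 : ℝ) - q.2) * (p.2 + q.2 + a) = 0 := by linarith
  rcases mul_eq_zero.1 h3 with h4 | h4
  · have : (p.2 : ℝ) = q.2 := by linarith
    exact Prod.ext h (by exact_mod_cast this)
  · exact absurd (by push_cast; linarith) (ha (-(p.2 + q.2)))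

lemma inj2 {a : ℝ} (ha : ∀ n : ℤ, a ≠ n) {p q : ℤ × ℤ} (hp : p ∈ A a) (hq : q ∈ A a)
    (h : p.2 = q.2) : p = q := by
  have h1 := hp.2
  have h2 := hq.2
  rw [h] at h1
  have h3 : ((p.1 : ℝ) - q.1) * (p.1 + q.1 - a) = 0 := by linarith
  rcases mul_eq_zero.1 h3 with h4 | h4
  · have : (p.1 : ℝ) = q.1 := by linarith
    exact Prod.ext (by exact_mod_cast this) h
  · exact absurd (by push_cast; linarith) (ha (p.1 + q.1))

lemma sum_eq {S T : Finset (ℤ × ℤ)} (g : ℤ × ℤ → ℤ) (hS : Set.InjOn g S) (hT : Set.InjOn g T)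
    (h1 : ∀ p ∈ S, ∃ q ∈ T, g q = g p) (h2 : ∀ p ∈ T, ∃ q ∈ S, g q = g p) (f : ℤ → ℝ) :
    ∑ p ∈ S, f (g p) = ∑ p ∈ T, f (g p) := by
  classical
  rw [← Finset.sum_image (f := f) hS, ← Finset.sum_image (f := f) hT]
  congr 1
  ext x
  simp only [Finset.mem_image]
  constructor
  · rintro ⟨p, hp, rfl⟩
    exact h1 p hp
  · rintro ⟨p, hp, rfl⟩
    exact h2 p hp

theorem result (a₁ a₂ : ℝ) (h : a₁ ≠ a₂) (h₁ : ∀ n : ℤ, a₁ ≠ n) (h₂ : ∀ n : ℤ, a₂ ≠ n) :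
    (G a₁ a₂).IsAcyclic := by
  classical
  intro v c hc
  set S : Finset (ℤ × ℤ) := c.support.toFinset.image Subtype.val with hSdef
  have hmem : ∀ p ∈ S, p ∈ A a₁ ∪ A a₂ := by
    intro p hp
    obtain ⟨q, -, rfl⟩ := Finset.mem_image.1 hp
    exact q.2
  -- two points with equal coordinate lie on different circles
  have key : ∀ p ∈ S, (∃ q ∈ S, q ≠ p ∧ q.1 = p.1) ∧ (∃ q ∈ S, q ≠ p ∧ q.2 = p.2) := by
    intro p hp
    obtain ⟨u, hu, rfl⟩ := Finset.mem_image.1 hp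
    have hu' : u ∈ c.support := List.mem_toFinset.1 hu
    obtain ⟨x, y, hxy, hN⟩ := Set.ncard_eq_two.1 (hc.ncard_neighborSet_toSubgraph_eq_two hu')
    have hx : c.toSubgraph.Adj u x := by
      have : x ∈ c.toSubgraph.neighborSet u := by rw [hN]; simp
      exact this
    have hy : c.toSubgraph.Adj u y := by
      have : y ∈ c.toSubgraph.neighborSet u := by rw [hN]; simp
      exact this
    have hxS : x.1 ∈ S := Finset.mem_image.2 ⟨x, List.mem_toFinset.2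
      (c.mem_verts_toSubgraph.1 hx.snd_mem), rfl⟩
    have hyS : y.1 ∈ S := Finset.mem_image.2 ⟨y, List.mem_toFinset.2
      (c.mem_verts_toSubgraph.1 hy.snd_mem), rfl⟩
    have ax := hx.adj_sub
    have ay := hy.adj_sub
    have nx : x.1 ≠ u.1 := fun e => ax.1 (Subtype.ext e.symm)
    have ny : y.1 ≠ u.1 := fun e => ay.1 (Subtype.ext e.symm)
    have nxy : x.1 ≠ y.1 := fun e => hxy (Subtype.ext e)
    rcases ax.2 with e1 | e1 <;> rcases ay.2 with e2 | e2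
    · exfalso
      rcases u.2 with m | m <;> rcases x.2 with mx | mx <;> rcases y.2 with my | my
      all_goals first
        | exact nx (inj1 h₁ mx m e1.symm)
        | exact nx (inj1 h₂ mx m e1.symm)
        | exact ny (inj1 h₁ my m e2.symm)
        | exact ny (inj1 h₂ my m e2.symm)
        | exact nxy (inj1 h₁ mx my (e1.symm.trans e2))
        | exact nxy (inj1 h₂ mx my (e1.symm.trans e2))
    · exact ⟨⟨x.1, hxS, nx, e1.symm⟩, ⟨y.1, hyS, ny, e2.symm⟩⟩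
    · exact ⟨⟨y.1, hyS, ny, e2.symm⟩, ⟨x.1, hxS, nx, e1.symm⟩⟩
    · exfalso
      rcases u.2 with m | m <;> rcases x.2 with mx | mx <;> rcases y.2 with my | my
      all_goals first
        | exact nx (inj2 h₁ mx m e1.symm)
        | exact nx (inj2 h₂ mx m e1.symm)
        | exact ny (inj2 h₁ my m e2.symm)
        | exact ny (inj2 h₂ my m e2.symm)
        | exact nxy (inj2 h₁ mx my (e1.symm.trans e2))
        | exact nxy (inj2 h₂ mx my (e1.symm.trans e2))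
  set S₁ := S.filter (· ∈ A a₁) with hS₁
  set S₂ := S.filter (· ∈ A a₂) with hS₂
  have m1 : ∀ p, p ∈ S₁ ↔ p ∈ S ∧ p ∈ A a₁ := fun p => Finset.mem_filter
  have m2 : ∀ p, p ∈ S₂ ↔ p ∈ S ∧ p ∈ A a₂ := fun p => Finset.mem_filter
  have ex : ∀ f : ℤ → ℝ, ∑ p ∈ S₁, f p.1 = ∑ p ∈ S₂, f p.1 := by
    refine sum_eq Prod.fst (fun p hp q hq e => inj1 h₁ ((m1 p).1 hp).2 ((m1 q).1 hq).2 e)
      (fun p hp q hq e => inj1 h₂ ((m2 p).1 hp).2 ((m2 q).1 hq).2 e) ?_ ?_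
    · intro p hp
      obtain ⟨q, hq, nq, e⟩ := (key p ((m1 p).1 hp).1).1
      rcases hmem q hq with m | m
      · exact absurd (inj1 h₁ m ((m1 p).1 hp).2 e) nq
      · exact ⟨q, (m2 q).2 ⟨hq, m⟩, e⟩
    · intro p hp
      obtain ⟨q, hq, nq, e⟩ := (key p ((m2 p).1 hp).1).1
      rcases hmem q hq with m | m
      · exact ⟨q, (m1 q).2 ⟨hq, m⟩, e⟩
      · exact absurd (inj1 h₂ m ((m2 p).1 hp).2 e) nq
  have ey : ∀ f : ℤ → ℝ, ∑ p ∈ S₁, f p.2 = ∑ p ∈ S₂, f p.2 := by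
    refine sum_eq Prod.snd (fun p hp q hq e => inj2 h₁ ((m1 p).1 hp).2 ((m1 q).1 hq).2 e)
      (fun p hp q hq e => inj2 h₂ ((m2 p).1 hp).2 ((m2 q).1 hq).2 e) ?_ ?_
    · intro p hp
      obtain ⟨q, hq, nq, e⟩ := (key p ((m1 p).1 hp).1).2
      rcases hmem q hq with m | m
      · exact absurd (inj2 h₁ m ((m1 p).1 hp).2 e) nq
      · exact ⟨q, (m2 q).2 ⟨hq, m⟩, e⟩
    · intro p hp
      obtain ⟨q, hq, nq, e⟩ := (key p ((m2 p).1 hp).1).2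
      rcases hmem q hq with m | m
      · exact ⟨q, (m1 q).2 ⟨hq, m⟩, e⟩
      · exact absurd (inj2 h₂ m ((m2 p).1 hp).2 e) nq
  have circ : ∀ (a : ℝ) (T : Finset (ℤ × ℤ)), (∀ p ∈ T, p ∈ A a) →
      ∑ p ∈ T, (p.1 : ℝ) ^ 2 + ∑ p ∈ T, (p.2 : ℝ) ^ 2
        = a * (∑ p ∈ T, (p.1 : ℝ) - ∑ p ∈ T, (p.2 : ℝ)) := by
    intro a T hT
    rw [← Finset.sum_add_distrib, ← Finset.sum_sub_distrib, Finset.mul_sum]
    exact Finset.sum_congr rfl fun p hp => by have := (hT p hp).2; linarith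
  have c1 := circ a₁ S₁ fun p hp => ((m1 p).1 hp).2
  have c2 := circ a₂ S₂ fun p hp => ((m2 p).1 hp).2
  have x1 := ex fun n => (n : ℝ)
  have x2 := ex fun n => (n : ℝ) ^ 2
  have y1 := ey fun n => (n : ℝ)
  have y2 := ey fun n => (n : ℝ) ^ 2
  rw [← x1, ← x2, ← y1, ← y2] at c2
  have hD : ∑ p ∈ S₁, (p.1 : ℝ) - ∑ p ∈ S₁, (p.2 : ℝ) = 0 := by
    have : (a₁ - a₂) * (∑ p ∈ S₁, (p.1 : ℝ) - ∑ p ∈ S₁, (p.2 : ℝ)) = 0 := by linarith
    exact (mul_eq_zero.1 this).resolve_left (sub_ne_zero.2 h)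
  rw [hD, mul_zero] at c1
  have hne : ∃ p, p ∈ S₁ := by
    have hv : v.1 ∈ S := Finset.mem_image.2 ⟨v, List.mem_toFinset.2 c.start_mem_support, rfl⟩
    rcases hmem _ hv with m | m
    · exact ⟨_, (m1 _).2 ⟨hv, m⟩⟩
    · obtain ⟨q, hq, nq, e⟩ := (key _ hv).1
      rcases hmem q hq with m' | m'
      · exact ⟨q, (m1 q).2 ⟨hq, m'⟩⟩
      · exact absurd (inj1 h₂ m' m e) nq
  obtain ⟨p, hp⟩ := hne
  have n1 : (p.1 : ℝ) ^ 2 ≤ ∑ p ∈ S₁, (p.1 : ℝ) ^ 2 :=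
    Finset.single_le_sum (f := fun p : ℤ × ℤ => (p.1 : ℝ) ^ 2) (fun _ _ => sq_nonneg _) hp
  have n2 : (p.2 : ℝ) ^ 2 ≤ ∑ p ∈ S₁, (p.2 : ℝ) ^ 2 :=
    Finset.single_le_sum (f := fun p : ℤ × ℤ => (p.2 : ℝ) ^ 2) (fun _ _ => sq_nonneg _) hp
  have z1 : (p.1 : ℝ) = 0 := by nlinarith [sq_nonneg (p.1 : ℝ), sq_nonneg (p.2 : ℝ)]
  have z2 : (p.2 : ℝ) = 0 := by nlinarith [sq_nonneg (p.1 : ℝ), sq_nonneg (p.2 : ℝ)]
  exact ((m1 p).1 hp).2.1 (Prod.ext (by exact_mod_cast z1) (by exact_mod_cast z2))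

end Pool.Agent.Results.MP_0955de_an.NoCycle
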